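import Pool.Agent.W669.HD.Stm5

/-!
# Alternating functions of four indices in `Fin 5` are decomposable
-/

set_option autoImplicit false

namespace Pool.Agent.W891.HD

open Pool.Agent.W669.HD Pool.Agent.W666.GB Finset

theorem altF_noninj {Z : (Fin 4 → Fin 5) → ℝ} (hZ : AltF Z) {F : Fin 4 → Fin 5}
    (hF : ¬ Function.Injective F) : Z F = 0 := by
  rw [Function.not_injective_iff] at hF
  obtain ⟨a, b, hab, hne⟩ := hF
  have h1 : F ∘ (Equiv.swap a b) = F := by
    funext i
    simp only [Function.comp_apply]
    rcases eq_or_ne i a with h | h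
    · rw [h, Equiv.swap_apply_left, hab]
    · rcases eq_or_ne i b with h' | h'
      · rw [h', Equiv.swap_apply_right, hab]
      · rw [Equiv.swap_apply_of_ne_of_ne h h']
  have h2 := hZ F (Equiv.swap a b)
  rw [h1] at h2
  have h3 : sn (Equiv.swap a b) = -1 := by simp [sn, Equiv.Perm.sign_swap hne]
  rw [h3] at h2
  linarith

theorem image_eq (q : Fin 5) (H : Fin 4 → Fin 5) (hH : Function.Injective H)
    (h : ∀ i, H i ≠ q) : Finset.univ.image H = Finset.univ.erase q := by
  apply Finset.eq_of_subset_of_card_le
  · intro x hx
    simp only [Finset.mem_image, Finset.mem_univ, true_and] at hx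
    obtain ⟨i, rfl⟩ := hx
    simpa using h i
  · rw [Finset.card_image_of_injective _ hH]
    simp

theorem exists_perm {F G : Fin 4 → Fin 5} (hF : Function.Injective F)
    (hG : Function.Injective G) (q : Fin 5) (h1 : ∀ i, F i ≠ q) (h2 : ∀ i, G i ≠ q) :
    ∃ π : Equiv.Perm (Fin 4), F = G ∘ π := by
  have h3 : ∀ i, ∃ j, G j = F i := by
    intro i
    have h4 : F i ∈ Finset.univ.image G := by
      rw [image_eq q G hG h2, ← image_eq q F hF h1]
      simp
    simpa using h4
  choose f hf using h3
  have hinj : Function.Injective f := by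
    intro i j hij
    apply hF
    rw [← hf i, ← hf j, hij]
  refine ⟨Equiv.ofBijective f (Finite.injective_iff_bijective.1 hinj), ?_⟩
  funext i
  simp [hf]

theorem altF_ext {Z Z' : (Fin 4 → Fin 5) → ℝ} (hZ : AltF Z) (hZ' : AltF Z')
    (ι : Fin 4 → Fin 5) (hι : Function.Injective ι) (p : Fin 5) (hp : ∀ i, ι i ≠ p)
    (h0 : Z ι = Z' ι)
    (h1 : ∀ k, Z (Function.update ι k p) = Z' (Function.update ι k p)) :
    ∀ F, Z F = Z' F := by
  intro F
  by_cases hF : Function.Injective F
  · obtain ⟨q, hq⟩ : ∃ q, ∀ i, F i ≠ q := by
      by_contra h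
      push Not at h
      have h2 : Function.Surjective F := fun q => h q
      have h3 := Fintype.card_le_of_surjective F h2
      simp at h3
    by_cases hqp : q = p
    · subst hqp
      obtain ⟨π, rfl⟩ := exists_perm hF hι q hq hp
      rw [hZ, hZ', h0]
    · obtain ⟨k, hk⟩ : ∃ k, ι k = q := by
        have h4 : q ∈ Finset.univ.image ι := by
          rw [image_eq p ι hι hp]
          simpa using hqp
        simpa using h4
      have hu : Function.Injective (Function.update ι k p) := by
        intro i j hij
        rcases eq_or_ne i k with h | h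
        · rcases eq_or_ne j k with h' | h'
          · rw [h, h']
          · rw [h, Function.update_self, Function.update_of_ne h'] at hij
            exact absurd hij.symm (hp j)
        · rcases eq_or_ne j k with h' | h'
          · rw [h', Function.update_self, Function.update_of_ne h] at hij
            exact absurd hij (hp i)
          · rw [Function.update_of_ne h, Function.update_of_ne h'] at hij
            exact hι hij
      have hu2 : ∀ i, Function.update ι k p i ≠ q := by
        intro i
        rcases eq_or_ne i k with h | h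
        · rw [h, Function.update_self]
          exact Ne.symm hqp
        · rw [Function.update_of_ne h, ← hk]
          exact fun h' => h (hι h')
      obtain ⟨π, rfl⟩ := exists_perm hF hu q hq hu2
      rw [hZ, hZ', h1]
  · rw [altF_noninj hZ hF, altF_noninj hZ' hF]

theorem sum_eq_det (v : Fin 4 → Fin 5 → ℝ) (F : Fin 4 → Fin 5) :
    ∑ π : Equiv.Perm (Fin 4), sn π * ∏ i, v (π i) (F i) =
      (Matrix.of fun j i => v j (F i)).det := by
  rw [Matrix.det_apply']
  rfl

theorem altF_det (v : Fin 4 → Fin 5 → ℝ) :
    AltF (fun F => ∑ π : Equiv.Perm (Fin 4), sn π * ∏ i, v (π i) (F i)) := by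
  intro F σ
  simp only
  rw [sum_eq_det, sum_eq_det, sn, ← Matrix.det_permute']
  rfl

theorem dec : S_DEC := by
  intro Z hZ
  by_cases h : ∃ F, Z F ≠ 0
  swap
  · push Not at h
    refine ⟨fun _ _ => 0, fun F => ?_⟩
    rw [h F]
    simp
  obtain ⟨ι, hc⟩ := h
  have hι : Function.Injective ι := by
    by_contra hn
    exact hc (altF_noninj hZ hn)
  obtain ⟨p, hp⟩ : ∃ q, ∀ i, ι i ≠ q := by
    by_contra h
    push Not at h
    have h2 : Function.Surjective ι := fun q => h q
    have h3 := Fintype.card_le_of_surjective ι h2
    simp at h3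
  set c := Z ι with hcdef
  let a : Fin 4 → ℝ := fun j => if j = 0 then c else 1
  let b : Fin 4 → ℝ := fun j => if j = 0 then Z (Function.update ι 0 p)
    else Z (Function.update ι j p) / c
  let v : Fin 4 → Fin 5 → ℝ := fun j q => if q = p then b j else if q = ι j then a j else 0
  have hv1 : ∀ j i, v j (ι i) = if j = i then a j else 0 := by
    intro j i
    simp only [v, hp i, if_false]
    by_cases hij : j = i
    · simp [hij]
    · have : ι i ≠ ι j := fun h' => hij (hι h').symm
      simp [this, hij]
  have hv2 : ∀ j, v j p = b j := fun j => by simp [v]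
  have hm1 : (Matrix.of fun j i => v j (ι i)) = Matrix.diagonal a := by
    ext j i
    rw [Matrix.of_apply, hv1, Matrix.diagonal_apply]
  have hm2 : ∀ k, (Matrix.of fun j i => v j (Function.update ι k p i)) =
      (Matrix.diagonal a).updateCol k b := by
    intro k
    ext j i
    rw [Matrix.of_apply, Matrix.updateCol_apply]
    by_cases hik : i = k
    · rw [hik, Function.update_self, hv2]
      simp
    · rw [Function.update_of_ne hik, hv1, Matrix.diagonal_apply]
      simp [hik]
  refine ⟨v, altF_ext hZ (altF_det v) ι hι p hp ?_ ?_⟩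
  · rw [sum_eq_det, hm1, Matrix.det_diagonal]
    simp [a, Finset.prod_ite_eq', hcdef]
  · intro k
    rw [sum_eq_det, hm2, ← Matrix.cramer_apply, Matrix.cramer_eq_adjugate_mulVec,
      Matrix.adjugate_diagonal, Matrix.mulVec_diagonal]
    by_cases hk : k = 0
    · subst hk
      simp [a, b, Finset.prod_ite_eq']
    · have hk' : (0 : Fin 4) ∈ Finset.univ.erase k := by
        simpa using Ne.symm hk
      simp only [a, b, Finset.prod_ite_eq', hk', if_true, hk, if_false]
      field_simp

end Pool.Agent.W891.HD
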